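import Mathlib

/-!
# The Fibonacci sequence twisted by the Thue-Morse sequence: matrix form
-/

set_option autoImplicit false

namespace Pool.Agent.R488.TM

/-- The Prouhet-Thue-Morse sequence with values `±1`: `t n = (-1) ^ s₂(n)`, where `s₂(n)` is the
sum of the binary digits of `n`. -/
def t (n : ℕ) : ℤ := (-1) ^ (Nat.digits 2 n).sum

/-- The sequence `h 0 = 0`, `h 1 = 1`, `h n = t n * h (n - 1) + h (n - 2)`. -/
def h : ℕ → ℤ
  | 0 => 0
  | 1 => 1
  | n + 2 => t (n + 2) * h (n + 1) + h n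

lemma t_zero : t 0 = 1 := by simp [t]

lemma t_even (n : ℕ) : t (2 * n) = t n := by
  rcases Nat.eq_zero_or_pos n with rfl | hn
  · rfl
  · unfold t
    rw [Nat.digits_def' (by norm_num) (by omega : 0 < 2 * n)]
    have h1 : 2 * n % 2 = 0 := by omega
    have h2 : 2 * n / 2 = n := by omega
    rw [h1, h2]
    simp

lemma t_odd (n : ℕ) : t (2 * n + 1) = -t n := by
  unfold t
  rw [Nat.digits_def' (by norm_num) (by omega : 0 < 2 * n + 1)]
  have h1 : (2 * n + 1) % 2 = 1 := by omega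
  have h2 : (2 * n + 1) / 2 = n := by omega
  rw [h1, h2, List.sum_cons, pow_add]
  ring

lemma t_sq (n : ℕ) : t n * t n = 1 := by
  unfold t
  rw [← mul_pow]
  norm_num

lemma t_cases (n : ℕ) : t n = 1 ∨ t n = -1 := by
  have := t_sq n
  have h1 : (t n - 1) * (t n + 1) = 0 := by ring_nf; ring_nf at this; omega
  rcases mul_eq_zero.1 h1 with h2 | h2
  · left; omega
  · right; omega

lemma tt_cases (m n : ℕ) : t m * t n = 1 ∨ t m * t n = -1 := by
  rcases t_cases m with h1 | h1 <;> rcases t_cases n with h2 | h2 <;> rw [h1, h2] <;> norm_num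

/-- `t (2 ^ k u + j) = t u t j` for `j < 2 ^ k`. -/
lemma t_add (k : ℕ) : ∀ u j : ℕ, j < 2 ^ k → t (2 ^ k * u + j) = t u * t j := by
  induction k with
  | zero =>
    intro u j hj
    have : j = 0 := by simpa using hj
    subst this
    simp [t_zero]
  | succ k ih =>
    intro u j hj
    have h1 : j / 2 < 2 ^ k := by
      rw [Nat.div_lt_iff_lt_mul (by norm_num)]
      calc j < 2 ^ (k + 1) := hj
        _ = 2 ^ k * 2 := by ring
    have h2 := ih u (j / 2) h1
    have h3 : 2 ^ (k + 1) * u + j = 2 * (2 ^ k * u + j / 2) + j % 2 := by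
      have := Nat.div_add_mod j 2
      calc 2 ^ (k + 1) * u + j = 2 ^ (k + 1) * u + (2 * (j / 2) + j % 2) := by rw [this]
        _ = _ := by ring
    have h5 : t j = t (2 * (j / 2) + j % 2) := by rw [Nat.div_add_mod j 2]
    rw [h3, h5]
    have h6 : j % 2 = 0 ∨ j % 2 = 1 := by omega
    rcases h6 with h | h <;> rw [h]
    · rw [Nat.add_zero, Nat.add_zero, t_even, t_even, h2]
    · rw [t_odd, t_odd, h2]; ring

lemma t_add_dvd {k m j : ℕ} (hm : 2 ^ k ∣ m) (hj : j < 2 ^ k) : t (m + j) = t m * t j := by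
  obtain ⟨u, rfl⟩ := hm
  rw [t_add k u j hj]
  have := t_add k u 0 (by positivity)
  rw [Nat.add_zero, t_zero, mul_one] at this
  rw [this]

/-- The linear recursion for the pairs of absolute values. -/
def W (v : ℤ × ℤ) : ℕ → ℤ × ℤ
  | 0 => v
  | n + 1 => ((1 + t (n + 1) * t n) * (W v n).1 + (W v n).2, (W v n).1 + (W v n).2)

/-- `X n = |h (4 n)|`. -/
def X (n : ℕ) : ℤ := (W (0, 1) n).1

/-- `Y n = |h (4 n + 1)|`. -/
def Y (n : ℕ) : ℤ := (W (0, 1) n).2

lemma X_zero : X 0 = 0 := rfl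
lemma Y_zero : Y 0 = 1 := rfl
lemma X_succ (n : ℕ) : X (n + 1) = (1 + t (n + 1) * t n) * X n + Y n := rfl
lemma Y_succ (n : ℕ) : Y (n + 1) = X n + Y n := rfl

lemma h_rec (n : ℕ) : h (n + 2) = t (n + 2) * h (n + 1) + h n := rfl

lemma t4 (n : ℕ) : t (4 * n) = t n := by
  rw [show 4 * n = 2 * (2 * n) by ring, t_even, t_even]
lemma t41 (n : ℕ) : t (4 * n + 1) = -t n := by
  rw [show 4 * n + 1 = 2 * (2 * n) + 1 by ring, t_odd, t_even]
lemma t42 (n : ℕ) : t (4 * n + 2) = -t n := by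
  rw [show 4 * n + 2 = 2 * (2 * n + 1) by ring, t_even, t_odd]
lemma t43 (n : ℕ) : t (4 * n + 3) = t n := by
  rw [show 4 * n + 3 = 2 * (2 * n + 1) + 1 by ring, t_odd, t_odd, neg_neg]

/-- The values of `h` in terms of `X` and `Y`. -/
lemma h_values (n : ℕ) : h (4 * n) = -X n ∧ h (4 * n + 1) = t n * Y n ∧
    h (4 * n + 2) = -Y (n + 1) ∧ h (4 * n + 3) = -(t n * X n) := by
  have key : ∀ n : ℕ, h (4 * n) = -X n → h (4 * n + 1) = t n * Y n →
      h (4 * n + 2) = -Y (n + 1) ∧ h (4 * n + 3) = -(t n * X n) := by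
    intro n h0 h1
    have h2 : h (4 * n + 2) = -Y (n + 1) := by
      rw [h_rec, h0, h1, t42, Y_succ]
      linear_combination (-Y n) * t_sq n
    refine ⟨h2, ?_⟩
    rw [show 4 * n + 3 = 4 * n + 1 + 2 by ring, h_rec, show 4 * n + 1 + 1 = 4 * n + 2 by ring,
      h1, h2, show 4 * n + 1 + 2 = 4 * n + 3 by ring, t43, Y_succ]
    ring
  have main : ∀ n : ℕ, h (4 * n) = -X n ∧ h (4 * n + 1) = t n * Y n := by
    intro n
    induction n with
    | zero => exact ⟨rfl, by rw [t_zero]; rfl⟩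
    | succ n ih =>
      obtain ⟨h2, h3⟩ := key n ih.1 ih.2
      have h4 : h (4 * (n + 1)) = -X (n + 1) := by
        rw [show 4 * (n + 1) = 4 * n + 2 + 2 by ring, h_rec,
          show 4 * n + 2 + 1 = 4 * n + 3 by ring, h2, h3,
          show 4 * n + 2 + 2 = 4 * (n + 1) by ring, t4, X_succ, Y_succ]
        ring
      refine ⟨h4, ?_⟩
      rw [show 4 * (n + 1) + 1 = 4 * n + 3 + 2 by ring, h_rec,
        show 4 * n + 3 + 1 = 4 * (n + 1) by ring, h4, h3,
        show 4 * n + 3 + 2 = 4 * (n + 1) + 1 by ring, t41, X_succ, Y_succ]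
      linear_combination t n * X n * t_sq (n + 1)
  exact ⟨(main n).1, (main n).2, key n (main n).1 (main n).2⟩

lemma XY_pos (n : ℕ) : 0 ≤ X n ∧ 1 ≤ Y n ∧ X n ≤ 2 * Y n ∧ (1 ≤ n → Y n ≤ 3 * X n) := by
  induction n with
  | zero => refine ⟨le_rfl, le_rfl, ?_, fun h => absurd h (by norm_num)⟩; norm_num [X_zero, Y_zero]
  | succ n ih =>
    obtain ⟨h1, h2, h3, -⟩ := ih
    rw [X_succ, Y_succ]
    rcases tt_cases (n + 1) n with h | h <;> rw [h] <;> refine ⟨?_, ?_, ?_, fun _ => ?_⟩ <;>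
      omega

lemma W_add {k m : ℕ} (hm : 2 ^ k ∣ m) (v : ℤ × ℤ) :
    ∀ j : ℕ, j < 2 ^ k → W v (m + j) = W (W v m) j := by
  intro j
  induction j with
  | zero => intro _; rfl
  | succ j ih =>
    intro hj
    have h1 := ih (by omega)
    rw [← Nat.add_assoc, W, W, h1]
    have h2 : t (m + j + 1) * t (m + j) = t (j + 1) * t j := by
      rw [Nat.add_assoc, t_add_dvd hm hj, t_add_dvd hm (by omega : j < 2 ^ k)]
      linear_combination t (j + 1) * t j * t_sq m
    rw [h2]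

/-- Near multiplicativity of `Y`. -/
lemma Y_mul {k m : ℕ} (hm : 2 ^ k ∣ m) (j : ℕ) (hj : j < 2 ^ k) :
    Y m * Y j ≤ Y (m + j) ∧ Y (m + j) ≤ 3 * (Y m * Y j) := by
  obtain ⟨hX, hY, hXY, -⟩ := XY_pos m
  -- lower bound
  have hlow : ∀ j : ℕ, (Y m * X j ≤ (W (X m, Y m) j).1 ∧ Y m * Y j ≤ (W (X m, Y m) j).2) := by
    intro j
    induction j with
    | zero => constructor
              · rw [X_zero, mul_zero]; exact hX
              · rw [Y_zero, mul_one]; exact le_rfl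
    | succ j ih =>
      obtain ⟨h1, h2⟩ := ih
      rw [X_succ, Y_succ, W]
      rcases tt_cases (j + 1) j with h | h <;> rw [h] <;> constructor <;> dsimp only <;> nlinarith
  have hup : ∀ j : ℕ, ((W (X m, Y m) (j + 1)).1 ≤ 3 * (Y m * X (j + 1)) ∧
      (W (X m, Y m) (j + 1)).2 ≤ 3 * (Y m * Y (j + 1))) := by
    intro j
    induction j with
    | zero =>
      have h0 : t (0 + 1) * t 0 = -1 := by
        rw [show 0 + 1 = 2 * 0 + 1 by ring, t_odd, t_zero]; norm_num
      rw [X_succ, Y_succ, W, h0, X_zero, Y_zero]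
      simp only [W]
      constructor <;> omega
    | succ j ih =>
      obtain ⟨h1, h2⟩ := ih
      rw [X_succ (j + 1), Y_succ (j + 1), W]
      rcases tt_cases (j + 1 + 1) (j + 1) with h | h <;> rw [h] <;> constructor <;> dsimp only <;>
        nlinarith
  have hW : Y (m + j) = (W (X m, Y m) j).2 := by
    unfold Y
    rw [W_add hm _ j hj]
    rfl
  rw [hW]
  refine ⟨(hlow j).2, ?_⟩
  rcases Nat.eq_zero_or_pos j with rfl | hj0
  · rw [Y_zero]
    simp only [W]
    omega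
  · obtain ⟨i, rfl⟩ : ∃ i, j = i + 1 := ⟨j - 1, by omega⟩
    exact (hup i).2

end Pool.Agent.R488.TM
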